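import Mathlib
import Pool.Agent.Lib.MP_3c8d56_co.Voltage

/-!
A self-clique finite graph with a finite triangular cover that is not self-clique.
-/

set_option autoImplicit false

namespace Pool.Agent.Results.MP_3c8d56_co.CoverNotPeriodic

open Pool.Agent.MP_3c8d56_co

/-- There are finite graphs `G'`, `G` and a triangular covering map `p : G' → G` such that
for every odd `n` one has `k^n G ≅ G`, but `k^n G'` is not isomorphic to `G'`. -/
theorem result : ∃ (V' V : Type) (_ : Finite V') (_ : Finite V) (G' : SimpleGraph V')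
    (G : SimpleGraph V) (p : V' → V), IsTriangularCovering G' G p ∧
      ∀ n : ℕ, Odd n → IsCliquePeriodic n G ∧ ¬ IsCliquePeriodic n G' := by
  obtain ⟨α, hα, hZ⟩ : ∃ α : Multiplicative (ZMod 2), α ≠ 1 ∧ ∀ x, x = α ∨ x = 1 :=
    ⟨Multiplicative.ofAdd 1, by decide, by decide⟩
  have h1 : Subgroup.closure {α, 1} = ⊤ := by
    rw [eq_top_iff]
    intro x _
    rcases hZ x with rfl | rfl
    · exact Subgroup.subset_closure (by simp)
    · exact Subgroup.one_mem _
  have h2 : Subgroup.closure {(1 : Multiplicative (ZMod 2) →* Unit) α,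
      (1 : Multiplicative (ZMod 2) →* Unit) 1} = ⊤ := Subsingleton.elim _ _
  refine ⟨Multiplicative (ZMod 2) × Fin 8, Unit × Fin 8, inferInstance, inferInstance, vg α 1,
    vg _ _, _, vg_covering (1 : Multiplicative (ZMod 2) →* Unit) α 1 h1 h2,
    fun n hn => ⟨?_, not_periodic α hα hn⟩⟩
  exact periodic_of_swap (MulEquiv.refl _) _ _ (Subsingleton.elim _ _) (Subsingleton.elim _ _) hn

end Pool.Agent.Results.MP_3c8d56_co.CoverNotPeriodic
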