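import Mathlib
import Pool.Agent.Lib.MP_3c8d56_co.Voltage

/-!
A self-clique finite graph which triangularly covers a graph that is not self-clique.
-/

set_option autoImplicit false

namespace Pool.Agent.Results.MP_3c8d56_co.QuotientNotPeriodic

open Pool.Agent.MP_3c8d56_co

/-- There are finite graphs `G'`, `G` and a triangular covering map `p : G' → G` such that
for every odd `n` one has `k^n G' ≅ G'`, but `k^n G` is not isomorphic to `G`. -/
theorem result : ∃ (V' V : Type) (_ : Finite V') (_ : Finite V) (G' : SimpleGraph V')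
    (G : SimpleGraph V) (p : V' → V), IsTriangularCovering G' G p ∧
      ∀ n : ℕ, Odd n → IsCliquePeriodic n G' ∧ ¬ IsCliquePeriodic n G := by
  obtain ⟨Z, _, _, a, ha, hZ⟩ : ∃ (Z : Type) (_ : Group Z) (_ : Finite Z) (a : Z), a ≠ 1 ∧
      ∀ x, x = a ∨ x = 1 :=
    ⟨Multiplicative (ZMod 2), inferInstance, inferInstance, Multiplicative.ofAdd 1, by decide,
      by decide⟩
  have h1 : Subgroup.closure {((a, 1) : Z × Z), ((1, a) : Z × Z)} = ⊤ := by
    rw [eq_top_iff]
    rintro ⟨x, y⟩ _
    have e : (x, y) = (x, (1 : Z)) * ((1 : Z), y) := by simp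
    rw [e]
    apply Subgroup.mul_mem
    · rcases hZ x with rfl | rfl
      · exact Subgroup.subset_closure (by simp)
      · exact Subgroup.one_mem _
    · rcases hZ y with rfl | rfl
      · exact Subgroup.subset_closure (by simp)
      · exact Subgroup.one_mem _
  have h2 : Subgroup.closure {(MonoidHom.fst Z Z) (a, 1), (MonoidHom.fst Z Z) (1, a)} = ⊤ := by
    rw [eq_top_iff]
    intro x _
    rcases hZ x with rfl | rfl
    · exact Subgroup.subset_closure (by simp)
    · exact Subgroup.one_mem _
  refine ⟨(Z × Z) × Fin 8, Z × Fin 8, inferInstance, inferInstance, vg (a, 1) (1, a),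
    vg _ _, _, vg_covering (MonoidHom.fst Z Z) (a, 1) (1, a) h1 h2, fun n hn => ⟨?_, ?_⟩⟩
  · exact periodic_of_swap (MulEquiv.prodComm : Z × Z ≃* Z × Z) (a, 1) (1, a) rfl rfl hn
  · exact not_periodic a ha hn

end Pool.Agent.Results.MP_3c8d56_co.QuotientNotPeriodic
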